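import Pool.Agent.Q67.AXI.Defs

/-!
Project AXI, lemma AXI-EQC: the equation of the circulation.
-/

set_option autoImplicit false

open MeasureTheory Set Metric Filter Topology
open scoped ContDiff
open H459R3.NS Pool.Agent.W268.NS Pool.Agent.Q67.VD

namespace Pool.Agent.Q149.AXI

open Pool.Agent.Q85.CC Pool.Agent.Q85.CL Pool.Agent.TH305.AX Pool.Agent.Q67.AXI

/-- The rotation matrix. -/
noncomputable def Rmt (θ : ℝ) : Fin 3 → Fin 3 → ℝ :=
  ![![Real.cos θ, -Real.sin θ, 0], ![Real.sin θ, Real.cos θ, 0], ![0, 0, 1]]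

lemma rot_eqM (θ : ℝ) (x : V) (a : Fin 3) : rot θ x a = ∑ b, Rmt θ a b * x b := by
  fin_cases a <;> simp [rot, Rmt, Fin.sum_univ_three] <;> ring

lemma Rmt_orth (θ : ℝ) (b c : Fin 3) :
    ∑ a, Rmt θ a b * Rmt θ a c = if b = c then 1 else 0 := by
  have h := Real.sin_sq_add_cos_sq θ
  fin_cases b <;> fin_cases c <;> simp [Rmt, Fin.sum_univ_three] <;> nlinarith

lemma Rmt_orth' (θ : ℝ) (b c : Fin 3) :
    ∑ a, Rmt θ b a * Rmt θ c a = if b = c then 1 else 0 := by
  have h := Real.sin_sq_add_cos_sq θ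
  fin_cases b <;> fin_cases c <;> simp [Rmt, Fin.sum_univ_three] <;> nlinarith

/-- Rotation as a continuous linear map. -/
noncomputable def rotC (θ : ℝ) : V →L[ℝ] V := LinearMap.toContinuousLinearMap
  { toFun := rot θ
    map_add' := fun x y => by
      funext a
      rw [rot_eqM, Pi.add_apply, rot_eqM, rot_eqM, ← Finset.sum_add_distrib]
      exact Finset.sum_congr rfl fun b _ => by rw [Pi.add_apply]; ring
    map_smul' := fun c x => by
      funext a
      rw [rot_eqM, RingHom.id_apply, Pi.smul_apply, rot_eqM, smul_eq_mul, Finset.mul_sum]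
      exact Finset.sum_congr rfl fun b _ => by rw [Pi.smul_apply, smul_eq_mul]; ring }

lemma rot_singleM (θ : ℝ) (b : Fin 3) :
    rot θ (Pi.single b 1) = ∑ a, Rmt θ a b • (Pi.single a 1 : V) := by
  funext a
  rw [rot_eqM, Finset.sum_apply]
  simp [Pi.single_apply]

lemma pd_rotM (θ : ℝ) {f : V → ℝ} (hf : ContDiff ℝ ∞ f) (b : Fin 3) (x : V) :
    pd b (fun y => f (rot θ y)) x = ∑ a, Rmt θ a b * pd a f (rot θ x) := by
  have h1 : HasFDerivAt (fun y => f (rot θ y)) ((fderiv ℝ f (rot θ x)).comp (rotC θ)) x := by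
    have h2 : HasFDerivAt f (fderiv ℝ f (rot θ x)) (rot θ x) :=
      ((hf.differentiable (by norm_cast)) _).hasFDerivAt
    exact h2.comp x (rotC θ).hasFDerivAt
  unfold pd
  rw [h1.fderiv]
  show fderiv ℝ f (rot θ x) (rot θ (Pi.single b 1)) = _
  rw [rot_singleM, map_sum]
  exact Finset.sum_congr rfl fun a _ => by rw [map_smul, smul_eq_mul]

lemma pd_rotM' (θ : ℝ) {f : V → ℝ} (hf : ContDiff ℝ ∞ f) (a : Fin 3) (x : V) :
    pd a f (rot θ x) = ∑ b, Rmt θ a b * pd b (fun y => f (rot θ y)) x := by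
  simp only [pd_rotM θ hf, Finset.mul_sum]
  rw [Finset.sum_comm]
  have h : ∀ c, ∑ b, Rmt θ a b * (Rmt θ c b * pd c f (rot θ x))
      = (if a = c then 1 else 0) * pd c f (rot θ x) := by
    intro c
    rw [← Rmt_orth' θ a c, Finset.sum_mul]
    exact Finset.sum_congr rfl fun b _ => by ring
  simp [h]

lemma pd_linM {ι : Type} [Fintype ι] (c : ι → ℝ) {g : ι → V → ℝ} (hg : ∀ i, ContDiff ℝ ∞ (g i))
    (b : Fin 3) (x : V) : pd b (fun y => ∑ j, c j * g j y) x = ∑ j, c j * pd b (g j) x := by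
  have h1 : HasFDerivAt (fun y => ∑ j, c j * g j y) (∑ j, c j • fderiv ℝ (g j) x) x := by
    apply HasFDerivAt.fun_sum
    intro j _
    exact (((hg j).differentiable (by norm_cast)) x).hasFDerivAt.const_mul (c j)
  unfold pd
  rw [h1.fderiv]
  simp

/-- Gradient of an invariant function. -/
lemma pd_inv {f : V → ℝ} (hf : ContDiff ℝ ∞ f) (hi : AxF f) (θ : ℝ) (a : Fin 3) (x : V) :
    pd a f (rot θ x) = ∑ b, Rmt θ a b * pd b f x := by
  have e : (fun y => f (rot θ y)) = f := funext fun y => hi θ y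
  rw [pd_rotM' θ hf, e]

/-- The Laplacian of an invariant function is invariant. -/
lemma lap_inv {f : V → ℝ} (hf : ContDiff ℝ ∞ f) (hi : AxF f) (θ : ℝ) (x : V) :
    lap f (rot θ x) = lap f x := by
  unfold lap
  have h1 : ∀ a, pd a (pd a f) (rot θ x)
      = ∑ b, ∑ c, Rmt θ a b * Rmt θ a c * pd b (pd c f) x := by
    intro a
    rw [pd_rotM' θ (Pool.Agent.W583.MD.sm_pd hf a)]
    refine Finset.sum_congr rfl fun b _ => ?_
    have e : (fun y => pd a f (rot θ y)) = fun y => ∑ c, Rmt θ a c * pd c f y :=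
      funext fun y => pd_inv hf hi θ a y
    rw [e, pd_linM (fun c => Rmt θ a c) (fun c => Pool.Agent.W583.MD.sm_pd hf c), Finset.mul_sum]
    exact Finset.sum_congr rfl fun c _ => by ring
  simp only [h1]
  rw [Finset.sum_comm]
  refine Finset.sum_congr rfl fun b _ => ?_
  rw [Finset.sum_comm]
  have h2 : ∀ c, ∑ a, Rmt θ a b * Rmt θ a c * pd b (pd c f) x
      = (if b = c then 1 else 0) * pd b (pd c f) x := by
    intro c
    rw [← Rmt_orth θ b c, Finset.sum_mul]
  simp [h2]

/-- The derivative of an invariant function along an axisymmetric field is invariant. -/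
lemma adv_inv {f : V → ℝ} (hf : ContDiff ℝ ∞ f) (hi : AxF f) {v : V → V} (ha : Axi v) (θ : ℝ)
    (x : V) : W221.NS.adv v f (rot θ x) = W221.NS.adv v f x := by
  unfold W221.NS.adv
  have h1 : ∀ a, v (rot θ x) a * pd a f (rot θ x)
      = ∑ b, ∑ c, Rmt θ a b * Rmt θ a c * (v x b * pd c f x) := by
    intro a
    rw [ha, rot_eqM, pd_inv hf hi, Finset.sum_mul_sum]
    exact Finset.sum_congr rfl fun b _ => Finset.sum_congr rfl fun c _ => by ring
  simp only [h1]
  rw [Finset.sum_comm]
  refine Finset.sum_congr rfl fun b _ => ?_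
  rw [Finset.sum_comm]
  have h2 : ∀ c, ∑ a, Rmt θ a b * Rmt θ a c * (v x b * pd c f x)
      = (if b = c then 1 else 0) * (v x b * pd c f x) := by
    intro c
    rw [← Rmt_orth θ b c, Finset.sum_mul]
  simp [h2]

lemma RR_inv {f : V → ℝ} (hf : ContDiff ℝ ∞ f) (hi : AxF f) (θ : ℝ) (x : V) :
    RR f (rot θ x) = RR f x := by
  unfold RR
  rw [pd_inv hf hi, pd_inv hf hi]
  have h := Real.sin_sq_add_cos_sq θ
  simp only [Fin.sum_univ_three, Rmt, rot]
  simp
  linear_combination (x 0 * pd 0 f x + x 1 * pd 1 f x) * h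

/-- AXI-EQC. -/
theorem t_EqC : StmEqC := by
  intro T E c R H u p h t ht x hx hsg
  have hsm : ContDiff ℝ ∞ (u t) := by
    rw [← contDiffOn_univ]
    exact h.smooth_u.comp (f := fun x : V => (t, x)) (by fun_prop) (fun x _ => ⟨ht, mem_univ _⟩)
  have hsp : ContDiff ℝ ∞ (p t) := by
    rw [← contDiffOn_univ]
    exact h.smooth_p.comp (f := fun x : V => (t, x)) (by fun_prop) (fun x _ => ⟨ht, mem_univ _⟩)
  have hax := h.axi t ht
  have hci : AxF (circ (u t)) := fun θ y => circ_rot hax θ y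
  have hcs := sm_circ hsm
  -- time derivative
  have hD : ∀ y : V, HasDerivAt (fun τ => circ (u τ) y)
      (y 0 * deriv (fun s => u s y 1) t - y 1 * deriv (fun s => u s y 0) t) t := by
    intro y
    have hi : ∀ i : Fin 3, HasDerivAt (fun s => u s y i) (deriv (fun s => u s y i) t) t := by
      intro i
      have h1 : ContDiffOn ℝ ∞ (fun s : ℝ => u s y i) (Ioo 0 T) := by
        have h2 : ContDiffOn ℝ ∞ (fun s : ℝ => u s y) (Ioo 0 T) :=
          h.smooth_u.comp (f := fun s : ℝ => (s, y)) (by fun_prop)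
            (fun s hs => ⟨hs, mem_univ _⟩)
        exact (contDiffOn_pi.1 h2) i
      exact ((h1.differentiableOn (by norm_cast)) t ht).differentiableAt
        (Ioo_mem_nhds ht.1 ht.2) |>.hasDerivAt
    exact ((hi 1).const_mul (y 0)).sub ((hi 0).const_mul (y 1))
  have hDr : ∀ θ : ℝ, (rot θ x) 0 * deriv (fun s => u s (rot θ x) 1) t
      - (rot θ x) 1 * deriv (fun s => u s (rot θ x) 0) t
      = x 0 * deriv (fun s => u s x 1) t - x 1 * deriv (fun s => u s x 0) t := by
    intro θ
    refine (hD (rot θ x)).unique ((hD x).congr_of_eventuallyEq ?_)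
    filter_upwards [Ioo_mem_nhds ht.1 ht.2] with s hs
    exact circ_rot (h.axi s hs) θ x
  -- the equation at all points of the circle
  have key : ∀ θ : ℝ, (rot θ x) 0 * pd 1 (p t) (rot θ x) - (rot θ x) 1 * pd 0 (p t) (rot θ x)
      = lap (circ (u t)) x - 2 / sg x * RR (circ (u t)) x - W221.NS.adv (u t) (circ (u t)) x
        - (x 0 * deriv (fun s => u s x 1) t - x 1 * deriv (fun s => u s x 0) t) := by
    intro θ
    have hy : rot θ x ∈ Co c R H := by
      refine ⟨?_, ?_⟩
      · rw [sg_rot]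
        exact hx.1
      · exact hx.2
    have m0 := h.momentum t ht (rot θ x) hy 0
    have m1 := h.momentum t ht (rot θ x) hy 1
    have hl := lap_circ hsm (rot θ x)
    have had := adv_circ hsm (rot θ x)
    have hom := om_circ hsm hax (rot θ x)
    rw [sg_rot] at hom
    have hRR : (rot θ x) 0 * pd 0 (circ (u t)) (rot θ x) + (rot θ x) 1 * pd 1 (circ (u t))
        (rot θ x) = RR (circ (u t)) x := RR_inv hcs hci θ x
    rw [hRR] at hom
    have hom2 : pd 0 (fun y => u t y 1) (rot θ x) - pd 1 (fun y => u t y 0) (rot θ x)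
        = RR (circ (u t)) x / sg x := by
      rw [eq_div_iff hsg]
      linarith
    have hl0 : ∑ j, pd j (pd j (fun y => u t y 0)) (rot θ x)
        = lap (fun y => u t y 0) (rot θ x) := rfl
    have hl1 : ∑ j, pd j (pd j (fun y => u t y 1)) (rot θ x)
        = lap (fun y => u t y 1) (rot θ x) := rfl
    rw [hl0] at m0
    rw [hl1] at m1
    have hli := lap_inv hcs hci θ x
    have hai : ∑ j, u t (rot θ x) j * pd j (circ (u t)) (rot θ x)
        = W221.NS.adv (u t) (circ (u t)) x := adv_inv hcs hci hax θ x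
    rw [← hDr θ, ← hli, ← hai, had, hl, hom2]
    have e : 2 / sg x * RR (circ (u t)) x = 2 * (RR (circ (u t)) x / sg x) := by ring
    rw [e]
    linear_combination (rot θ x) 0 * m1 - (rot θ x) 1 * m0
  obtain ⟨θ, hθ⟩ := rolle (hsp.differentiable (by norm_cast)) x
  have hk := key θ
  rw [hθ] at hk
  exact (hD x).congr_deriv (by linarith)

end Pool.Agent.Q149.AXI
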