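import Pool.Agent.Q149.AXI.Wt

/-!
Project AXI (helper67), second part, lemma AXW-T1 (helper149).
-/

set_option autoImplicit false

open MeasureTheory Set Metric Filter Topology
open scoped ContDiff
open H459R3.NS Pool.Agent.W268.NS Pool.Agent.Q67.VD

namespace Pool.Agent.Q149.AXI

open Pool.Agent.Q85.CC Pool.Agent.Q85.CL Pool.Agent.TH305.AX Pool.Agent.Q67.AXI
open Pool.Agent.W583.MD (sm_pd pd_mul')

lemma sm_RR {f : V → ℝ} (hf : ContDiff ℝ ∞ f) : ContDiff ℝ ∞ (RR f) := by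
  have h0 := sm_pd hf 0
  have h1 := sm_pd hf 1
  unfold RR
  exact ((sm_crd 0).mul h0).add ((sm_crd 1).mul h1)

lemma RR_mul {f g : V → ℝ} (hf : ContDiff ℝ ∞ f) (hg : ContDiff ℝ ∞ g) (x : V) :
    RR (fun y => f y * g y) x = f x * RR g x + g x * RR f x := by
  unfold RR
  rw [pd_mul' hf hg, pd_mul' hf hg]
  ring

lemma pd_com {f : V → ℝ} (hf : ContDiff ℝ ∞ f) (i j : Fin 3) (x : V) :
    pd i (pd j f) x = pd j (pd i f) x := by
  have h2 : ContDiffAt ℝ 2 f x := hf.contDiffAt.of_le (by norm_cast)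
  have hs : IsSymmSndFDerivAt ℝ f x := h2.isSymmSndFDerivAt (by simp)
  have key : ∀ i j : Fin 3, pd i (pd j f) x
      = fderiv ℝ (fderiv ℝ f) x (Pi.single i 1) (Pi.single j 1) := by
    intro i j
    have hd : DifferentiableAt ℝ (fderiv ℝ f) x :=
      (h2.fderiv_right (m := 1) (by norm_num)).differentiableAt (by norm_num)
    have h3 : HasFDerivAt (fun y => fderiv ℝ f y (Pi.single j 1))
        ((ContinuousLinearMap.apply ℝ ℝ (Pi.single j 1 : V)).comp
          (fderiv ℝ (fderiv ℝ f) x)) x :=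
      (ContinuousLinearMap.apply ℝ ℝ (Pi.single j 1 : V)).hasFDerivAt.comp x hd.hasFDerivAt
    show fderiv ℝ (fun y => fderiv ℝ f y (Pi.single j 1)) x (Pi.single i 1) = _
    rw [h3.fderiv]
    rfl
  rw [key i j, key j i]
  exact hs.eq _ _

lemma pd2_RR {f : V → ℝ} (hf : ContDiff ℝ ∞ f) (x : V) : pd 2 (RR f) x = RR (pd 2 f) x := by
  have h0 := sm_pd hf 0
  have h1 := sm_pd hf 1
  have e : RR f = fun y => y 0 * pd 0 f y + y 1 * pd 1 f y := rfl
  have a0 : ContDiff ℝ ∞ (fun y : V => y 0 * pd 0 f y) := (sm_crd 0).mul h0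
  have a1 : ContDiff ℝ ∞ (fun y : V => y 1 * pd 1 f y) := (sm_crd 1).mul h1
  have e2 : pd 2 (fun y => y 0 * pd 0 f y + y 1 * pd 1 f y) x
      = pd 2 (fun y : V => y 0 * pd 0 f y) x + pd 2 (fun y : V => y 1 * pd 1 f y) x := by
    have := congrFun (Pool.Agent.TH305.DR.pd_add' a0 a1 2) x
    exact this
  rw [e, e2, pd_mul' (sm_crd 0) h0, pd_mul' (sm_crd 1) h1, pd_crd, pd_crd]
  unfold RR
  rw [pd_com hf 2 0, pd_com hf 2 1]
  simp

lemma pd_zero_of_max {φ : V → ℝ} {x : V} (h : ∀ y, φ y ≤ φ x) (i : Fin 3) : pd i φ x = 0 := by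
  have h1 : IsLocalMax φ x := Eventually.of_forall h
  unfold pd
  rw [h1.fderiv_eq_zero]
  rfl

lemma pd_off {φ : V → ℝ} {x : V} (h : x ∉ tsupport φ) (i : Fin 3) : pd i φ x = 0 := by
  have h1 : φ =ᶠ[𝓝 x] fun _ => 0 := by
    have := notMem_tsupport_iff_eventuallyEq.1 h
    exact this
  unfold pd
  rw [h1.fderiv_eq]
  simp

lemma pt1 {s a b δ w : ℝ} (hs : 0 < s) (hw : |w| * s ≤ δ) :
    |a * b * w| ≤ δ / 2 * (a ^ 2 / s + b ^ 2 / s) := by
  have h1 : |w| ≤ δ / s := by rwa [le_div_iff₀ hs]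
  rw [abs_mul, abs_mul]
  have h2 : |a| * |b| ≤ (a ^ 2 + b ^ 2) / 2 := by
    nlinarith [sq_nonneg (|a| - |b|), sq_abs a, sq_abs b]
  calc |a| * |b| * |w| ≤ (a ^ 2 + b ^ 2) / 2 * (δ / s) :=
        mul_le_mul h2 h1 (abs_nonneg _) (by positivity)
    _ = _ := by ring

lemma pt2 {s a b δ w : ℝ} (hs : 0 < s) (hw : |w| * s ≤ δ) :
    |a * b * w| ≤ δ / 2 * (a ^ 2 + b ^ 2 / s ^ 2) := by
  have h1 : |w| ≤ δ / s := by rwa [le_div_iff₀ hs]
  have hδ : 0 ≤ δ := le_trans (by positivity) hw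
  rw [abs_mul, abs_mul]
  have h2 : |a| * (|b| / s) ≤ (a ^ 2 + b ^ 2 / s ^ 2) / 2 := by
    have e : b ^ 2 / s ^ 2 = (|b| / s) ^ 2 := by rw [div_pow, sq_abs]
    rw [e]
    nlinarith [sq_nonneg (|a| - |b| / s), sq_abs a]
  calc |a| * |b| * |w| ≤ |a| * |b| * (δ / s) :=
        mul_le_mul_of_nonneg_left h1 (by positivity)
    _ = |a| * (|b| / s) * δ := by ring
    _ ≤ (a ^ 2 + b ^ 2 / s ^ 2) / 2 * δ := mul_le_mul_of_nonneg_right h2 hδ
    _ = _ := by ring

lemma RR_sq (f : V → ℝ) (x : V) : RR f x ^ 2 ≤ sg x * (pd 0 f x ^ 2 + pd 1 f x ^ 2) := by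
  unfold RR sg
  nlinarith [sq_nonneg (x 0 * pd 1 f x - x 1 * pd 0 f x)]

lemma sm_gr2 {f : V → ℝ} (hf : ContDiff ℝ ∞ f) : Continuous (gr2 f) := by
  unfold gr2
  exact continuous_finsetSum _ fun i _ => ((sm_pd hf i).continuous).pow 2

lemma cs_pd {f : V → ℝ} (hc : HasCompactSupport f) (i : Fin 3) : HasCompactSupport (pd i f) :=
  (hc.fderiv (𝕜 := ℝ)).comp_left (g := fun L : V →L[ℝ] ℝ => L (Pi.single i 1)) rfl

lemma cs_gr2 {f : V → ℝ} (hc : HasCompactSupport f) : HasCompactSupport (gr2 f) := by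
  refine HasCompactSupport.intro hc.isCompact fun x hx => ?_
  unfold gr2
  simp [pd_off hx]

lemma gr2_nonneg (f : V → ℝ) (x : V) : 0 ≤ gr2 f x :=
  Finset.sum_nonneg fun i _ => sq_nonneg _

lemma Cy_closed (c r h : ℝ) : IsClosed (Cy c r h) := by
  have h1 : IsClosed {x : V | sg x ≤ r ^ 2} := isClosed_le sg_cont continuous_const
  have h2 : IsClosed {x : V | |x 2 - c| ≤ h} := isClosed_le (by fun_prop) continuous_const
  exact h1.inter h2

lemma Cy_bdd {c r h : ℝ} (hr0 : 0 ≤ r) : ∃ R : ℝ, Cy c r h ⊆ closedBall 0 R := by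
  refine ⟨max r (|c| + h), fun x hx => ?_⟩
  rw [mem_closedBall, dist_zero_right, pi_norm_le_iff_of_nonneg (le_max_of_le_left hr0)]
  obtain ⟨h1, h2⟩ := hx
  unfold sg at h1
  have k0 : |x 0| ≤ r := abs_le_of_sq_le_sq (by nlinarith [sq_nonneg (x 1)]) hr0
  have k1 : |x 1| ≤ r := abs_le_of_sq_le_sq (by nlinarith [sq_nonneg (x 0)]) hr0
  intro i
  rw [Real.norm_eq_abs]
  fin_cases i
  · exact k0.trans (le_max_left _ _)
  · exact k1.trans (le_max_left _ _)
  · have h3 : |x 2| ≤ |c| + h := by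
      have := abs_add_le (x 2 - c) c
      rw [sub_add_cancel] at this
      linarith
    exact h3.trans (le_max_right _ _)

/-- AXW-T1; the facts about axisymmetric functions are not needed. -/
theorem t_T1W' (hAlg : StmAlg) (hU : StmUW) : StmT1W := by
  intro γ h0 h1
  have hγ1 : γ < 1 := by linarith
  obtain ⟨C₁, hC₁, hUW⟩ := hU γ h0 h1
  refine ⟨1 + 4 * C₁, by positivity, fun K c r h r1 h1' hK hr1 hr hrle hh1 hh hhle => ?_⟩
  obtain ⟨C', hC', hUC⟩ := hUW K c r h r1 h1' hK hr1 hr hrle hh1 hh hhle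
  obtain ⟨R, hR⟩ := Cy_bdd (c := c) (r := r) (h := h) (by linarith)
  have hCym : MeasurableSet (Cy c r h) := (Cy_closed c r h).measurableSet
  have hI0i : IntegrableOn (fun x : V => sg x ^ (γ - 1)) (Cy c r h) :=
    (sgp_int h0 hγ1 R).mono_set hR
  have hVf : volume (Cy c r h) < ⊤ :=
    (measure_mono hR).trans_lt measure_closedBall_lt_top
  obtain ⟨I0, hI0⟩ : ∃ I0 : ℝ, I0 = ∫ x in Cy c r h, sg x ^ (γ - 1) := ⟨_, rfl⟩
  obtain ⟨V0, hV0⟩ : ∃ V0 : ℝ, V0 = volume.real (Cy c r h) := ⟨_, rfl⟩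
  have hI0n : 0 ≤ I0 := by
    rw [hI0]
    exact setIntegral_nonneg hCym fun x _ => Real.rpow_nonneg (sg_nonneg x) _
  have hV0n : 0 ≤ V0 := by
    rw [hV0]
    exact measureReal_nonneg
  refine ⟨4 * C' + 12 * K ^ 4 * I0 + 6 * K ^ 4 * V0, by positivity,
    fun δ v φ hδ0 hδ1 hv hax hdiv hcut hbd hci => ?_⟩
  obtain ⟨⟨sU, sW, sJ, sO⟩, -, -, halg⟩ := hAlg v hv hax
  have hUb := (hUC v φ hv hax hdiv hcut hbd).1
  have sφ := hcut.sm
  have cφ := hcut.cs
  -- abbreviations
  obtain ⟨U, hUdef⟩ : ∃ U : V → ℝ, U = UU v := ⟨_, rfl⟩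
  obtain ⟨W, hWdef⟩ : ∃ W : V → ℝ, W = WW v := ⟨_, rfl⟩
  obtain ⟨J, hJdef⟩ : ∃ J : V → ℝ, J = JJ v := ⟨_, rfl⟩
  obtain ⟨f, hfdef⟩ : ∃ f : V → ℝ, f = fun x => φ x * J x := ⟨_, rfl⟩
  rw [← hUdef] at sU
  rw [← hWdef] at sW
  rw [← hJdef] at sJ
  have sf : ContDiff ℝ ∞ f := by rw [hfdef]; exact sφ.mul sJ
  have cf : HasCompactSupport f := by rw [hfdef]; exact cφ.mul_right
  have sφf : ContDiff ℝ ∞ (fun x => φ x * f x) := sφ.mul sf
  have cφf : HasCompactSupport (fun x => φ x * f x) := cφ.mul_right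
  have sW2 : ContDiff ℝ ∞ (fun x => W x * pd 2 U x) := sW.mul (sm_pd sU 2)
  have sWR : ContDiff ℝ ∞ (fun x => W x * RR U x) := sW.mul (sm_RR sU)
  have sG1 : ContDiff ℝ ∞ (fun x => (φ x * f x) * (W x * pd 2 U x)) := sφf.mul sW2
  have sG2 : ContDiff ℝ ∞ (fun x => (φ x * f x) * (W x * RR U x)) := sφf.mul sWR
  have cG1 : HasCompactSupport (fun x => (φ x * f x) * (W x * pd 2 U x)) := cφf.mul_right
  have cG2 : HasCompactSupport (fun x => (φ x * f x) * (W x * RR U x)) := cφf.mul_right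
  have ib1 := ibp_rad h0 hγ1 sG1 cG1
  have ib2 := ibp_ver h0 sG2 cG2
  -- the remaining term
  obtain ⟨T, hT⟩ : ∃ T : V → ℝ, T = fun x => wt γ x * (-(2 * γ * f x * (φ x * pd 2 U x) * W x)
      - RR f x * (φ x * pd 2 U x) * W x + pd 2 f x * (φ x * RR U x) * W x)
      + wt γ x * (-(f x * RR φ x * W x * pd 2 U x) + f x * pd 2 φ x * W x * RR U x) := ⟨_, rfl⟩
  have hid : ∀ x, wt γ x * φ x ^ 2 * JJ v x * SS v x
      = (wt γ x * (2 * ((φ x * f x) * (W x * pd 2 U x))
        + RR (fun x => (φ x * f x) * (W x * pd 2 U x)) x)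
        + 2 * γ * (wt γ x * ((φ x * f x) * (W x * pd 2 U x))))
        - wt γ x * pd 2 (fun x => (φ x * f x) * (W x * RR U x)) x + T x := by
    intro x
    rw [RR_mul sφf sW2, RR_mul sφ sf, RR_mul sW (sm_pd sU 2), pd_mul' sφf sWR, pd_mul' sφ sf,
      pd_mul' sW (sm_RR sU), pd2_RR sU, hT]
    unfold SS
    rw [← hUdef, ← hWdef, ← hJdef, hfdef]
    ring
  have cG1c := sG1.continuous
  have iA : Integrable (fun x => wt γ x * (2 * ((φ x * f x) * (W x * pd 2 U x))
      + RR (fun x => (φ x * f x) * (W x * pd 2 U x)) x)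
      + 2 * γ * (wt γ x * ((φ x * f x) * (W x * pd 2 U x)))) := by
    have j1 := int_wt h0 cG1c cG1
    have cR : HasCompactSupport (RR (fun x => (φ x * f x) * (W x * pd 2 U x))) := by
      refine HasCompactSupport.intro cG1.isCompact fun x hx => ?_
      unfold RR
      rw [pd_off hx, pd_off hx]
      ring
    have j2 := int_wt h0 (sm_RR sG1).continuous cR
    refine (((j1.const_mul 2).add j2).add (j1.const_mul (2 * γ))).congr
      (Eventually.of_forall fun x => ?_)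
    simp only [Pi.add_apply]
    ring
  have iB : Integrable (fun x => wt γ x * pd 2 (fun x => (φ x * f x) * (W x * RR U x)) x) :=
    int_wt h0 (sm_pd sG2 2).continuous (cs_pd cG2 2)
  have hφoff : ∀ x, x ∉ tsupport φ → φ x = 0 ∧ f x = 0 := by
    intro x hx
    have h2 : φ x = 0 := image_eq_zero_of_notMem_tsupport hx
    exact ⟨h2, by rw [hfdef]; simp [h2]⟩
  have iT : Integrable T := by
    obtain ⟨Q, hQ⟩ : ∃ Q : V → ℝ, Q = fun x => (-(2 * γ * f x * (φ x * pd 2 U x) * W x)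
      - RR f x * (φ x * pd 2 U x) * W x + pd 2 f x * (φ x * RR U x) * W x)
      + (-(f x * RR φ x * W x * pd 2 U x) + f x * pd 2 φ x * W x * RR U x) := ⟨_, rfl⟩
    have cQ : Continuous Q := by
      have c1 := sφ.continuous
      have c2 := sf.continuous
      have c3 := sW.continuous
      have c4 := (sm_pd sU 2).continuous
      have c5 := (sm_RR sU).continuous
      have c6 := (sm_RR sf).continuous
      have c7 := (sm_pd sf 2).continuous
      have c8 := (sm_pd sφ 2).continuous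
      have c9 := (sm_RR sφ).continuous
      rw [hQ]
      fun_prop
    have sQ : HasCompactSupport Q := by
      refine HasCompactSupport.intro cφ.isCompact fun x hx => ?_
      rw [hQ]
      simp only [(hφoff x hx).1, (hφoff x hx).2]
      ring
    refine (int_wt h0 cQ sQ).congr (Eventually.of_forall fun x => ?_)
    rw [hQ, hT]
    ring
  have hint : ∫ x, wt γ x * φ x ^ 2 * JJ v x * SS v x = ∫ x, T x := by
    rw [integral_congr_ae (Eventually.of_forall hid)]
    have e1 := integral_add (iA.sub iB) iT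
    have e2 := integral_sub iA iB
    simp only [Pi.sub_apply] at e1 e2
    rw [e1, e2, ib1, ib2]
    ring
  -- pointwise facts
  have hCoCy : ∀ x ∈ Co c r h, x ∈ Cy c r h := fun x hx => ⟨hx.1.le, hx.2.le⟩
  have hgφ : ∀ x, x ∈ Cy c r1 h1' → ∀ i, pd i φ x = 0 := by
    intro x hx i
    apply pd_zero_of_max
    intro y
    rw [hcut.one x hx]
    exact hcut.le y
  have hOut : ∀ x ∈ Co c r h, x ∉ Cy c r1 h1' → x ∈ Out c r h r1 h1' := by
    intro x hx hx2
    refine ⟨hCoCy x hx, ?_⟩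
    by_contra hcon
    push Not at hcon
    exact hx2 ⟨hcon.1.le, hcon.2.le⟩
  have hφ1 : ∀ x, |φ x| ≤ 1 := by
    intro x
    rw [abs_of_nonneg (hcut.nn x)]
    exact hcut.le x
  have hsg1 : ∀ x ∈ Cy c r h, sg x ≤ 1 := by
    intro x hx
    have h3 : sg x ≤ r ^ 2 := hx.1
    nlinarith
  have hxi : ∀ x ∈ Cy c r h, |x 0| ≤ 1 ∧ |x 1| ≤ 1 := by
    intro x hx
    have h3 := hsg1 x hx
    unfold sg at h3
    constructor
    · apply abs_le_of_sq_le_sq _ zero_le_one
      nlinarith [sq_nonneg (x 1)]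
    · apply abs_le_of_sq_le_sq _ zero_le_one
      nlinarith [sq_nonneg (x 0)]
  have hwt1 : ∀ x ∈ Cy c r h, wt γ x ≤ 1 := fun x hx =>
    Real.rpow_le_one (sg_nonneg x) (hsg1 x hx) h0.le
  -- the terms with derivatives of the cut-off function
  have hE : ∀ x ∈ Co c r h, |-(f x * RR φ x * W x * pd 2 U x) + f x * pd 2 φ x * W x * RR U x|
      ≤ 3 * K ^ 4 := by
    intro x hx
    by_cases hx2 : x ∈ Cy c r1 h1'
    · have e0 := hgφ x hx2 0
      have e1 := hgφ x hx2 1
      have e2 := hgφ x hx2 2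
      have e3 : RR φ x = 0 := by
        unfold RR
        rw [e0, e1]
        ring
      rw [e3, e2]
      simp only [mul_zero, zero_mul, neg_zero, add_zero, abs_zero]
      positivity
    · obtain ⟨-, bU, bW, bJ, -, bd⟩ := hbd x (hOut x hx hx2)
      rw [← hWdef] at bW
      rw [← hJdef] at bJ
      have bd0 := (bd 0).1
      have bd1 := (bd 1).1
      have bd2 := (bd 2).1
      rw [← hUdef] at bd0 bd1 bd2
      obtain ⟨bφ, -, bR⟩ := hcut.bd x
      have bf : |f x| ≤ K := by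
        rw [hfdef]
        show |φ x * J x| ≤ K
        rw [abs_mul]
        calc |φ x| * |J x| ≤ 1 * K := mul_le_mul (hφ1 x) bJ (abs_nonneg _) zero_le_one
          _ = K := one_mul K
      have bR' : |RR φ x| ≤ K := bR.trans (by
        have := hsg1 x (hCoCy x hx)
        nlinarith)
      have bRU : |RR U x| ≤ 2 * K := by
        obtain ⟨k0, k1⟩ := hxi x (hCoCy x hx)
        unfold RR
        calc |x 0 * pd 0 U x + x 1 * pd 1 U x| ≤ |x 0| * |pd 0 U x| + |x 1| * |pd 1 U x| := by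
              rw [← abs_mul, ← abs_mul]
              exact abs_add_le _ _
          _ ≤ 1 * K + 1 * K := by
              apply add_le_add
              · exact mul_le_mul k0 bd0 (abs_nonneg _) zero_le_one
              · exact mul_le_mul k1 bd1 (abs_nonneg _) zero_le_one
          _ = 2 * K := by ring
      calc _ ≤ |f x * RR φ x * W x * pd 2 U x| + |f x * pd 2 φ x * W x * RR U x| := by
            have := abs_add_le (-(f x * RR φ x * W x * pd 2 U x)) (f x * pd 2 φ x * W x * RR U x)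
            rwa [abs_neg] at this
        _ = |f x| * |RR φ x| * |W x| * |pd 2 U x| + |f x| * |pd 2 φ x| * |W x| * |RR U x| := by
            simp only [abs_mul]
        _ ≤ K * K * K * K + K * K * K * (2 * K) := by
            have b2 := bφ 2
            gcongr
        _ = 3 * K ^ 4 := by ring
  -- the quotient
  obtain ⟨q, hq⟩ : ∃ q : V → ℝ, q = fun x => φ x ^ 2 * gr2 U x := ⟨_, rfl⟩
  have cq : Continuous q := by
    rw [hq]
    have c1 := sφ.continuous
    have c2 := sm_gr2 sU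
    fun_prop
  have kq : HasCompactSupport q := by
    refine HasCompactSupport.intro cφ.isCompact fun x hx => ?_
    rw [hq]
    simp [(hφoff x hx).1]
  have iq : Integrable (fun x => wt γ x * (q x / sg x)) := int_div h0 hγ1 cq kq
  have sφU : ContDiff ℝ ∞ (fun x => φ x * U x) := sφ.mul sU
  have cφU : HasCompactSupport (fun x => φ x * U x) := cφ.mul_right
  have igU : Integrable (fun x => wt γ x * (gr2 (fun y => φ y * U y) x / sg x)) :=
    int_div h0 hγ1 (sm_gr2 sφU) (cs_gr2 cφU)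
  have hqb : ∀ x, wt γ x * (q x / sg x) ≤ 2 * (wt γ x * (gr2 (fun y => φ y * U y) x / sg x))
      + 6 * K ^ 4 * (Cy c r h).indicator (fun y => sg y ^ (γ - 1)) x := by
    intro x
    rw [wt_div hγ1 h0, wt_div hγ1 h0]
    have hp := Real.rpow_nonneg (sg_nonneg x) (γ - 1)
    have hi : ∀ i, (φ x * pd i U x) ^ 2 ≤ 2 * pd i (fun y => φ y * U y) x ^ 2
        + 2 * (U x * pd i φ x) ^ 2 := by
      intro i
      rw [pd_mul' sφ sU]
      nlinarith [sq_nonneg (φ x * pd i U x + pd i φ x * U x + U x * pd i φ x)]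
    have hq1 : q x ≤ 2 * gr2 (fun y => φ y * U y) x + 2 * (U x ^ 2 * gr2 φ x) := by
      rw [hq]
      unfold gr2
      simp only [Fin.sum_univ_three]
      linarith [hi 0, hi 1, hi 2, mul_pow (φ x) (pd 0 U x) 2, mul_pow (φ x) (pd 1 U x) 2,
        mul_pow (φ x) (pd 2 U x) 2, mul_pow (U x) (pd 0 φ x) 2, mul_pow (U x) (pd 1 φ x) 2,
        mul_pow (U x) (pd 2 φ x) 2]
    have hq2 : sg x ^ (γ - 1) * (U x ^ 2 * gr2 φ x)
        ≤ 3 * K ^ 4 * (Cy c r h).indicator (fun y => sg y ^ (γ - 1)) x := by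
      have hind : 0 ≤ (Cy c r h).indicator (fun y => sg y ^ (γ - 1)) x :=
        indicator_nonneg (fun y _ => Real.rpow_nonneg (sg_nonneg y) _) x
      by_cases hx : x ∈ tsupport φ
      · have hxCo := hcut.supp hx
        rw [indicator_of_mem (hCoCy x hxCo)]
        by_cases hx2 : x ∈ Cy c r1 h1'
        · have e : gr2 φ x = 0 := by
            unfold gr2
            simp [hgφ x hx2]
          rw [e, mul_zero, mul_zero]
          positivity
        · obtain ⟨-, bU, -⟩ := hbd x (hOut x hxCo hx2)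
          rw [← hUdef] at bU
          obtain ⟨bφ, -, -⟩ := hcut.bd x
          have b1 : U x ^ 2 ≤ K ^ 2 := by
            rw [← sq_abs]
            exact pow_le_pow_left₀ (abs_nonneg _) bU 2
          have b2 : gr2 φ x ≤ 3 * K ^ 2 := by
            unfold gr2
            rw [Fin.sum_univ_three]
            have : ∀ i, pd i φ x ^ 2 ≤ K ^ 2 := fun i => by
              rw [← sq_abs]
              exact pow_le_pow_left₀ (abs_nonneg _) (bφ i) 2
            linarith [this 0, this 1, this 2]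
          calc sg x ^ (γ - 1) * (U x ^ 2 * gr2 φ x) ≤ sg x ^ (γ - 1) * (K ^ 2 * (3 * K ^ 2)) :=
                mul_le_mul_of_nonneg_left (mul_le_mul b1 b2 (gr2_nonneg _ _) (by positivity)) hp
            _ = 3 * K ^ 4 * sg x ^ (γ - 1) := by ring
      · have e : gr2 φ x = 0 := by
          unfold gr2
          simp [pd_off hx]
        rw [e, mul_zero, mul_zero]
        positivity
    calc sg x ^ (γ - 1) * q x ≤ sg x ^ (γ - 1) * (2 * gr2 (fun y => φ y * U y) x
          + 2 * (U x ^ 2 * gr2 φ x)) := mul_le_mul_of_nonneg_left hq1 hp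
      _ = 2 * (sg x ^ (γ - 1) * gr2 (fun y => φ y * U y) x)
          + 2 * (sg x ^ (γ - 1) * (U x ^ 2 * gr2 φ x)) := by ring
      _ ≤ _ := by linarith
  have hQ0 : ∫ x, wt γ x * (q x / sg x) ≤
      2 * (∫ x, wt γ x * (gr2 (fun y => φ y * U y) x / sg x)) + 6 * K ^ 4 * I0 := by
    have i1 : Integrable ((Cy c r h).indicator (fun y : V => sg y ^ (γ - 1))) :=
      (integrable_indicator_iff hCym).2 hI0i
    refine (integral_mono iq ((igU.const_mul 2).add (i1.const_mul (6 * K ^ 4))) hqb).trans ?_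
    have e := integral_add (igU.const_mul 2) (i1.const_mul (6 * K ^ 4))
    simp only [Pi.add_apply] at e ⊢
    rw [e, integral_const_mul, integral_const_mul, integral_indicator hCym, hI0]
  -- the main estimate
  have igf : Integrable (fun x => wt γ x * gr2 f x) := int_wt h0 (sm_gr2 sf) (cs_gr2 cf)
  have ipf : Integrable (fun x => wt γ x * (f x ^ 2 / sg x)) :=
    int_div h0 hγ1 (sf.continuous.pow 2) (by
      refine HasCompactSupport.intro cφ.isCompact fun x hx => ?_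
      simp [(hφoff x hx).2])
  have iCy : Integrable ((Cy c r h).indicator (fun _ : V => (1 : ℝ))) := by
    rw [integrable_indicator_iff hCym]
    exact integrableOn_const hVf.ne
  have hTb : ∀ x, |T x| ≤ (δ / 2 * (wt γ x * gr2 f x) + δ / 2 * (wt γ x * (q x / sg x)))
      + (γ * δ * (wt γ x * (f x ^ 2 / sg x)) + γ * δ * (wt γ x * (q x / sg x)))
      + 3 * K ^ 4 * (Cy c r h).indicator (fun _ => (1 : ℝ)) x := by
    intro x
    have hw0 := wt_nonneg γ x
    have hs0 := sg_nonneg x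
    have hq0 : 0 ≤ q x := by
      rw [hq]
      exact mul_nonneg (sq_nonneg _) (gr2_nonneg _ _)
    have hgf0 := gr2_nonneg f x
    have hind : 0 ≤ (Cy c r h).indicator (fun _ => (1 : ℝ)) x :=
      indicator_nonneg (fun _ _ => zero_le_one) x
    have hRHS : 0 ≤ (δ / 2 * (wt γ x * gr2 f x) + δ / 2 * (wt γ x * (q x / sg x)))
      + (γ * δ * (wt γ x * (f x ^ 2 / sg x)) + γ * δ * (wt γ x * (q x / sg x)))
      + 3 * K ^ 4 * (Cy c r h).indicator (fun _ => (1 : ℝ)) x := by positivity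
    by_cases hx : x ∈ tsupport φ
    swap
    · have e : T x = 0 := by
        rw [hT]
        simp only [(hφoff x hx).1, (hφoff x hx).2]
        ring
      rw [e, abs_zero]
      exact hRHS
    rcases hs0.eq_or_lt with hs | hs
    · have e : wt γ x = 0 := by
        unfold wt
        rw [← hs, Real.zero_rpow h0.ne']
      have e2 : T x = 0 := by
        rw [hT]
        simp only [e]
        ring
      rw [e2, abs_zero]
      exact hRHS
    have hxCo := hcut.supp hx
    rw [indicator_of_mem (hCoCy x hxCo)]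
    have hWs : |W x| * sg x ≤ δ := by
      have h3 := hci x hxCo
      obtain ⟨-, -, -, -, -, -, -, -, h4, -⟩ := halg x
      rw [h4, abs_mul, abs_of_pos hs, ← hWdef] at h3
      linarith
    have p1 := pt1 (a := f x) (b := φ x * pd 2 U x) hs hWs
    have p2 := pt1 (a := RR f x) (b := φ x * pd 2 U x) hs hWs
    have p3 := pt2 (a := pd 2 f x) (b := φ x * RR U x) hs hWs
    have r1' : RR f x ^ 2 / sg x ≤ pd 0 f x ^ 2 + pd 1 f x ^ 2 := by
      rw [div_le_iff₀ hs, mul_comm]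
      exact RR_sq f x
    have r2 : (φ x * RR U x) ^ 2 / sg x ^ 2 ≤ φ x ^ 2 * (pd 0 U x ^ 2 + pd 1 U x ^ 2) / sg x := by
      rw [div_le_div_iff₀ (by positivity) hs]
      have := mul_le_mul_of_nonneg_left (RR_sq U x) (sq_nonneg (φ x))
      nlinarith [mul_le_mul_of_nonneg_right this hs.le]
    have eq1 : q x / sg x = φ x ^ 2 * (pd 0 U x ^ 2 + pd 1 U x ^ 2) / sg x
        + (φ x * pd 2 U x) ^ 2 / sg x := by
      rw [hq]
      unfold gr2
      simp only [Fin.sum_univ_three]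
      ring
    have eq2 : gr2 f x = pd 0 f x ^ 2 + pd 1 f x ^ 2 + pd 2 f x ^ 2 := by
      unfold gr2
      rw [Fin.sum_univ_three]
    have hn1 : 0 ≤ φ x ^ 2 * (pd 0 U x ^ 2 + pd 1 U x ^ 2) / sg x := by positivity
    have hP : |-(2 * γ * f x * (φ x * pd 2 U x) * W x)
        - RR f x * (φ x * pd 2 U x) * W x + pd 2 f x * (φ x * RR U x) * W x|
        ≤ δ / 2 * gr2 f x + δ / 2 * (q x / sg x) + (γ * δ * (f x ^ 2 / sg x)
          + γ * δ * (q x / sg x)) := by
      have t1 : |2 * γ * f x * (φ x * pd 2 U x) * W x|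
          ≤ γ * δ * (f x ^ 2 / sg x) + γ * δ * ((φ x * pd 2 U x) ^ 2 / sg x) := by
        have e : 2 * γ * f x * (φ x * pd 2 U x) * W x
            = (2 * γ) * (f x * (φ x * pd 2 U x) * W x) := by ring
        rw [e, abs_mul, abs_of_pos (by positivity : 0 < 2 * γ)]
        calc 2 * γ * |f x * (φ x * pd 2 U x) * W x|
            ≤ 2 * γ * (δ / 2 * (f x ^ 2 / sg x + (φ x * pd 2 U x) ^ 2 / sg x)) :=
              mul_le_mul_of_nonneg_left p1 (by positivity)
          _ = _ := by ring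
      have t2 : |-(2 * γ * f x * (φ x * pd 2 U x) * W x)
          - RR f x * (φ x * pd 2 U x) * W x + pd 2 f x * (φ x * RR U x) * W x|
          ≤ |2 * γ * f x * (φ x * pd 2 U x) * W x| + |RR f x * (φ x * pd 2 U x) * W x|
            + |pd 2 f x * (φ x * RR U x) * W x| := by
        refine (abs_add_le _ _).trans ?_
        have := abs_sub (-(2 * γ * f x * (φ x * pd 2 U x) * W x))
          (RR f x * (φ x * pd 2 U x) * W x)
        rw [abs_neg] at this
        linarith
      have u1 := mul_le_mul_of_nonneg_left r1' (show 0 ≤ δ / 2 by positivity)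
      have u2 := mul_le_mul_of_nonneg_left r2 (show 0 ≤ δ / 2 by positivity)
      have u3 : 0 ≤ γ * δ * (φ x ^ 2 * (pd 0 U x ^ 2 + pd 1 U x ^ 2) / sg x) := by positivity
      rw [eq1, eq2]
      nlinarith [t1, t2, p2, p3, u1, u2, u3]
    have hE' := hE x hxCo
    have hT2 : |T x| ≤ wt γ x * (δ / 2 * gr2 f x + δ / 2 * (q x / sg x) +
        (γ * δ * (f x ^ 2 / sg x) + γ * δ * (q x / sg x))) + 1 * (3 * K ^ 4) := by
      rw [hT]
      refine (abs_add_le _ _).trans ?_
      rw [abs_mul, abs_mul, abs_of_nonneg hw0]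
      apply add_le_add
      · exact mul_le_mul_of_nonneg_left hP hw0
      · exact mul_le_mul (hwt1 x (hCoCy x hxCo)) hE' (abs_nonneg _) zero_le_one
    refine hT2.trans (le_of_eq ?_)
    ring
  rw [hint]
  have hfin : |∫ x, T x| ≤ (δ / 2 * GW γ f + δ / 2 * ∫ x, wt γ x * (q x / sg x))
      + (γ * δ * PW γ f + γ * δ * ∫ x, wt γ x * (q x / sg x)) + 3 * K ^ 4 * V0 := by
    refine abs_integral_le_integral_abs.trans ?_
    have j1 := (igf.const_mul (δ / 2)).add (iq.const_mul (δ / 2))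
    have j2 := (ipf.const_mul (γ * δ)).add (iq.const_mul (γ * δ))
    refine (integral_mono iT.abs ((j1.add j2).add (iCy.const_mul (3 * K ^ 4)))
      (fun x => hTb x)).trans (le_of_eq ?_)
    have e1 := integral_add (j1.add j2) (iCy.const_mul (3 * K ^ 4))
    have e2 := integral_add j1 j2
    have e3 := integral_add (igf.const_mul (δ / 2)) (iq.const_mul (δ / 2))
    have e4 := integral_add (ipf.const_mul (γ * δ)) (iq.const_mul (γ * δ))
    simp only [Pi.add_apply] at e1 e2 e3 e4 ⊢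
    rw [e1, e2, e3, e4, integral_const_mul, integral_const_mul, integral_const_mul,
      integral_const_mul, integral_const_mul, integral_indicator hCym]
    have e5 : ∫ x in Cy c r h, (1 : ℝ) = V0 := by
      rw [hV0]
      simp [Measure.real]
    rw [e5]
    rfl
  have hhs : 0 ≤ ∫ x, wt γ x * hs2 (fun y => φ y * UU v y) x := by
    refine integral_nonneg fun x => mul_nonneg (wt_nonneg γ x) ?_
    exact Finset.sum_nonneg fun i _ => Finset.sum_nonneg fun j _ => sq_nonneg _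
  rw [← hUdef] at hUb hhs
  have hgU : ∫ x, wt γ x * (gr2 (fun y => φ y * U y) x / sg x)
      ≤ C₁ * GW γ (fun x => φ x * OO v x) + C' := by linarith
  have hQ1 : ∫ x, wt γ x * (q x / sg x) ≤
      2 * (C₁ * GW γ (fun x => φ x * OO v x) + C') + 6 * K ^ 4 * I0 := by linarith
  have hGJ : 0 ≤ GW γ f := integral_nonneg fun x => mul_nonneg (wt_nonneg γ x) (gr2_nonneg _ _)
  have hPJ : 0 ≤ PW γ f := integral_nonneg fun x => mul_nonneg (wt_nonneg γ x)
    (div_nonneg (sq_nonneg _) (sg_nonneg x))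
  have hGO : 0 ≤ GW γ (fun x => φ x * OO v x) :=
    integral_nonneg fun x => mul_nonneg (wt_nonneg γ x) (gr2_nonneg _ _)
  have hQn : 0 ≤ ∫ x, wt γ x * (q x / sg x) := integral_nonneg fun x =>
    mul_nonneg (wt_nonneg γ x) (div_nonneg (by
      rw [hq]
      exact mul_nonneg (sq_nonneg _) (gr2_nonneg _ _)) (sg_nonneg x))
  have hfJ : (fun x => φ x * JJ v x) = f := by rw [hfdef, hJdef]
  rw [hfJ]
  obtain ⟨Q, hQ⟩ : ∃ Q : ℝ, Q = ∫ x, wt γ x * (q x / sg x) := ⟨_, rfl⟩
  obtain ⟨G, hG⟩ : ∃ G : ℝ, G = GW γ (fun x => φ x * OO v x) := ⟨_, rfl⟩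
  rw [← hQ] at hfin hQ1 hQn
  rw [← hG] at hQ1 hGO ⊢
  have hδγ : (δ + 2 * (γ * δ)) * Q ≤ 2 * δ * Q := by nlinarith [mul_nonneg hδ0 hQn]
  have h5 : 2 * δ * Q ≤ 2 * δ * (2 * (C₁ * G + C') + 6 * K ^ 4 * I0) :=
    mul_le_mul_of_nonneg_left hQ1 (by positivity)
  have h6 : δ * C' ≤ C' := mul_le_of_le_one_left hC' hδ1
  have h7 : δ * (K ^ 4 * I0) ≤ K ^ 4 * I0 := mul_le_of_le_one_left (by positivity) hδ1
  have h8 : 0 ≤ C₁ * δ * GW γ f := by positivity
  have h9 : 0 ≤ C₁ * δ * PW γ f := by positivity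
  have h10 : 2 * (γ * δ) * PW γ f ≤ δ * PW γ f := by nlinarith [mul_nonneg hδ0 hPJ]
  have h11 : 0 ≤ δ * G := mul_nonneg hδ0 hGO
  nlinarith [hfin, hδγ, h5, h6, h7, h8, h9, h10, h11]

/-- AXW-T1. -/
theorem t_T1W : StmAlg → StmAxF → StmUW → StmT1W := fun hAlg _ hU => t_T1W' hAlg hU

end Pool.Agent.Q149.AXI
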