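import Pool.Agent.Q67.AXI.Defs2

/-!
Project AXI (helper67), second part: the weight `ρ ^ (2 γ)` (helper149).
-/

set_option autoImplicit false

open MeasureTheory Set Metric Filter Topology
open scoped ContDiff
open H459R3.NS Pool.Agent.W268.NS Pool.Agent.Q67.VD

namespace Pool.Agent.Q149.AXI

open Pool.Agent.Q85.CC Pool.Agent.Q85.CL Pool.Agent.TH305.AX Pool.Agent.Q67.AXI

lemma sg_cont : Continuous sg := by
  unfold sg
  fun_prop

lemma wt_cont {γ : ℝ} (hγ : 0 < γ) : Continuous (wt γ) := by
  unfold wt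
  exact sg_cont.rpow_const fun x => Or.inr hγ.le

lemma wt_nonneg (γ : ℝ) (x : V) : 0 ≤ wt γ x := Real.rpow_nonneg (sg_nonneg x) γ

lemma wt_div {γ : ℝ} (h1 : γ < 1) (hγ : 0 < γ) (x : V) (a : ℝ) :
    wt γ x * (a / sg x) = sg x ^ (γ - 1) * a := by
  unfold wt
  rcases (sg_nonneg x).eq_or_lt with h | h
  · rw [← h, Real.zero_rpow (by linarith), Real.zero_rpow (by linarith)]
    simp
  · rw [Real.rpow_sub h, Real.rpow_one]
    ring

lemma int1 {γ : ℝ} (h0 : 0 < γ) (R : ℝ) :
    Integrable (indicator (Icc (-R) R) fun t : ℝ => |t| ^ (γ - 1)) := by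
  rw [integrable_indicator_iff measurableSet_Icc]
  rcases le_or_gt 0 R with hR | hR
  · have h1 : IntervalIntegrable (fun t : ℝ => |t| ^ (γ - 1)) volume 0 R := by
      refine (intervalIntegral.intervalIntegrable_rpow' (a := 0) (b := R)
        (show -1 < γ - 1 by linarith)).congr fun t ht => ?_
      rw [uIoc_of_le hR] at ht
      show t ^ (γ - 1) = |t| ^ (γ - 1)
      rw [abs_of_pos ht.1]
    have h2 : IntervalIntegrable (fun t : ℝ => |t| ^ (γ - 1)) volume (-R) 0 := by
      have h3 := (IntervalIntegrable.iff_comp_neg (f := fun t : ℝ => |t| ^ (γ - 1)) (a := 0)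
        (b := -R)).2 (by simpa using h1)
      exact h3.symm
    have h3 := h2.trans h1
    rw [intervalIntegrable_iff_integrableOn_Icc_of_le (by linarith)] at h3
    exact h3
  · rw [Icc_eq_empty (by linarith)]
    exact integrableOn_empty

/-- `ρ ^ (2 γ - 2)` is integrable in cubes. -/
lemma sgp_int {γ : ℝ} (h0 : 0 < γ) (h1 : γ < 1) (R : ℝ) :
    IntegrableOn (fun x : V => sg x ^ (γ - 1)) (closedBall 0 R) := by
  set A : ℝ → ℝ := indicator (Icc (-R) R) fun t : ℝ => |t| ^ (γ - 1) with hA
  set B : ℝ → ℝ := indicator (Icc (-R) R) fun _ : ℝ => (1 : ℝ) with hB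
  have hAi : Integrable A := int1 h0 R
  have hBi : Integrable B := by
    rw [hB, integrable_indicator_iff measurableSet_Icc]
    exact integrableOn_const (by simp)
  have hP : Integrable (fun x : V => ∏ i, (![A, A, B] : Fin 3 → ℝ → ℝ) i (x i)) := by
    apply Integrable.fintype_prod
    intro i
    fin_cases i
    · exact hAi
    · exact hAi
    · exact hBi
  rw [← integrable_indicator_iff isClosed_closedBall.measurableSet]
  refine hP.mono' ?_ ?_
  · apply Measurable.aestronglyMeasurable
    apply Measurable.indicator _ isClosed_closedBall.measurableSet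
    exact (sg_cont.measurable).pow_const _
  · have e0 : ∀ᵐ x : V, x 0 ≠ 0 := Measure.ae_eval_ne (μ := fun _ => volume) 0 0
    have e1 : ∀ᵐ x : V, x 1 ≠ 0 := Measure.ae_eval_ne (μ := fun _ => volume) 1 0
    filter_upwards [e0, e1] with x hx0 hx1
    rw [Fin.prod_univ_three]
    show _ ≤ A (x 0) * A (x 1) * B (x 2)
    by_cases hx : x ∈ closedBall (0 : V) R
    · rw [indicator_of_mem hx]
      rw [mem_closedBall, dist_zero_right] at hx
      have hc : ∀ i, x i ∈ Icc (-R) R := by
        intro i
        have := (norm_le_pi_norm x i).trans hx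
        rw [Real.norm_eq_abs, abs_le] at this
        exact this
      rw [hA, hB, indicator_of_mem (hc 0), indicator_of_mem (hc 1), indicator_of_mem (hc 2),
        mul_one, Real.norm_eq_abs, abs_of_nonneg (Real.rpow_nonneg (sg_nonneg x) _),
        ← Real.mul_rpow (abs_nonneg _) (abs_nonneg _)]
      apply Real.rpow_le_rpow_of_nonpos
      · exact mul_pos (abs_pos.2 hx0) (abs_pos.2 hx1)
      · unfold sg
        nlinarith [sq_nonneg (|x 0| - |x 1|), sq_abs (x 0), sq_abs (x 1), abs_nonneg (x 0),
          abs_nonneg (x 1)]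
      · linarith
    · rw [indicator_of_notMem hx, norm_zero]
      have hA0 : ∀ t, 0 ≤ A t := fun t => indicator_nonneg (fun _ _ => Real.rpow_nonneg
        (abs_nonneg _) _) t
      have hB0 : ∀ t, 0 ≤ B t := fun t => indicator_nonneg (fun _ _ => zero_le_one) t
      exact mul_nonneg (mul_nonneg (hA0 _) (hA0 _)) (hB0 _)

/-- Bounded functions with bounded support. -/
lemma int_sgp {γ : ℝ} (h0 : 0 < γ) (h1 : γ < 1) {g : V → ℝ} {R M : ℝ}
    (hg : AEStronglyMeasurable g) (hb : ∀ x, |g x| ≤ M) (hs : ∀ x, g x ≠ 0 → ‖x‖ ≤ R) :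
    Integrable (fun x => wt γ x * (g x / sg x)) := by
  have h2 := (integrable_indicator_iff (isClosed_closedBall (x := (0 : V))
    (ε := R)).measurableSet).2 ((sgp_int h0 h1 R).mul_const M)
  simp only [wt_div h1 h0]
  refine h2.mono' ?_ (Eventually.of_forall fun x => ?_)
  · exact (((sg_cont.measurable).pow_const _).aestronglyMeasurable).mul hg
  · have hM : 0 ≤ M := (abs_nonneg _).trans (hb x)
    have hp := Real.rpow_nonneg (sg_nonneg x) (γ - 1)
    rw [Real.norm_eq_abs, abs_mul, abs_of_nonneg hp]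
    by_cases hx : g x = 0
    · rw [hx, abs_zero, mul_zero]
      exact indicator_nonneg (fun y _ => mul_nonneg (Real.rpow_nonneg (sg_nonneg y) _) hM) x
    · have hx2 : x ∈ closedBall (0 : V) R := by
        rw [mem_closedBall, dist_zero_right]
        exact hs x hx
      rw [indicator_of_mem hx2]
      exact mul_le_mul_of_nonneg_left (hb x) hp

lemma cs_bound {g : V → ℝ} (hg : Continuous g) (hc : HasCompactSupport g) :
    ∃ M R : ℝ, (∀ x, |g x| ≤ M) ∧ ∀ x, g x ≠ 0 → ‖x‖ ≤ R := by
  obtain ⟨M, hM⟩ := hg.bounded_above_of_compact_support hc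
  obtain ⟨R, hR⟩ := hc.isCompact.isBounded.exists_norm_le
  refine ⟨M, R, fun x => ?_, fun x hx => hR x (subset_tsupport _ hx)⟩
  have := hM x
  rwa [Real.norm_eq_abs] at this

/-- Continuous functions with compact support. -/
lemma int_div {γ : ℝ} (h0 : 0 < γ) (h1 : γ < 1) {g : V → ℝ} (hg : Continuous g)
    (hc : HasCompactSupport g) : Integrable (fun x => wt γ x * (g x / sg x)) := by
  obtain ⟨M, R, hM, hR⟩ := cs_bound hg hc
  exact int_sgp h0 h1 hg.aestronglyMeasurable hM hR

lemma int_wt {γ : ℝ} (h0 : 0 < γ) {g : V → ℝ} (hg : Continuous g)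
    (hc : HasCompactSupport g) : Integrable (fun x => wt γ x * g x) :=
  ((wt_cont h0).mul hg).integrable_of_hasCompactSupport hc.mul_left

/-- The integral of a derivative is zero. -/
lemma line_zero {F F' : V → ℝ} (i : Fin 3) (hF : Integrable F) (hF' : Integrable F')
    (h : ∀ x, HasLineDerivAt ℝ F (F' x) x (Pi.single i 1)) : ∫ x, F' x = 0 := by
  have key := integral_bilinear_hasLineDerivAt_right_eq_neg_left_of_integrable (μ := volume)
    (f := F) (f' := F') (g := fun _ => (1 : ℝ)) (g' := fun _ => (0 : ℝ)) (v := Pi.single i 1)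
    (B := ContinuousLinearMap.mul ℝ ℝ) (by simpa using hF') (by simp) (by simpa using hF)
    (fun x _ => h x) (fun x _ => by
      have : HasDerivAt (fun _ : ℝ => (1 : ℝ)) 0 0 := hasDerivAt_const _ _
      exact this)
  simp only [ContinuousLinearMap.mul_apply', mul_zero, integral_zero, mul_one] at key
  linarith

lemma one_dim {γ q a : ℝ} (h0 : 0 < γ) (h1 : γ < 1) (hq : 0 ≤ q) :
    HasDerivAt (fun t : ℝ => t * (t ^ 2 + q) ^ γ)
      ((a ^ 2 + q) ^ γ + 2 * γ * a ^ 2 * (a ^ 2 + q) ^ (γ - 1)) a := by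
  rcases (show 0 ≤ a ^ 2 + q by positivity).eq_or_lt with h | h
  · have ha : a = 0 := by
      have : a ^ 2 = 0 := by nlinarith [sq_nonneg a]
      exact pow_eq_zero_iff (two_ne_zero) |>.1 this
    have hq0 : q = 0 := by nlinarith [sq_nonneg a]
    subst ha
    subst hq0
    simp only [add_zero]
    have e : (0 : ℝ) ^ 2 = 0 := by norm_num
    rw [e, Real.zero_rpow h0.ne', mul_zero, zero_mul, add_zero]
    rw [hasDerivAt_iff_tendsto_slope]
    have h2 : Tendsto (fun t : ℝ => (t ^ 2) ^ γ) (𝓝[≠] 0) (𝓝 0) := by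
      have h3 : ContinuousAt (fun t : ℝ => (t ^ 2) ^ γ) 0 := by
        apply ContinuousAt.rpow_const (by fun_prop)
        exact Or.inr h0.le
      have h4 := h3.tendsto.mono_left (nhdsWithin_le_nhds (s := {0}ᶜ))
      simpa [Real.zero_rpow h0.ne'] using h4
    refine h2.congr' ?_
    filter_upwards [self_mem_nhdsWithin] with t ht
    have ht0 : t ≠ 0 := ht
    rw [slope_def_field]
    field_simp
    simp
    ring
  · have h2 : HasDerivAt (fun t : ℝ => t ^ 2 + q) (2 * a) a := by
      have := (hasDerivAt_pow 2 a).add_const q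
      simpa using this
    have h3 := (hasDerivAt_id a).mul (h2.rpow_const (p := γ) (Or.inl h.ne'))
    refine h3.congr_deriv ?_
    simp only [id]
    ring

lemma ld_of_pd {g : V → ℝ} (hg : ContDiff ℝ ∞ g) (i : Fin 3) (x : V) :
    HasDerivAt (fun t : ℝ => g (x + t • (Pi.single i 1 : V))) (pd i g x) 0 := by
  have h1 : HasFDerivAt g (fderiv ℝ g x) x := ((hg.differentiable (by norm_cast)) x).hasFDerivAt
  exact (h1.hasLineDerivAt (Pi.single i 1))

lemma sg_line0 (x : V) (t : ℝ) : sg (x + t • (Pi.single 0 1 : V)) = (x 0 + t) ^ 2 + x 1 ^ 2 := by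
  unfold sg
  simp

lemma sg_line1 (x : V) (t : ℝ) : sg (x + t • (Pi.single 1 1 : V)) = (x 1 + t) ^ 2 + x 0 ^ 2 := by
  unfold sg
  simp
  ring

lemma sg_line2 (x : V) (t : ℝ) : sg (x + t • (Pi.single 2 1 : V)) = sg x := by
  unfold sg
  simp

/-- Integration by parts: the radial derivative. -/
lemma ibp_rad {γ : ℝ} (h0 : 0 < γ) (h1 : γ < 1) {g : V → ℝ} (hg : ContDiff ℝ ∞ g)
    (hc : HasCompactSupport g) :
    ∫ x, (wt γ x * (2 * g x + RR g x) + 2 * γ * (wt γ x * g x)) = 0 := by
  have hgc := hg.continuous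
  have hpd : ∀ i, ContDiff ℝ ∞ (pd i g) := fun i => Pool.Agent.W583.MD.sm_pd hg i
  have hpc : ∀ i, HasCompactSupport (pd i g) := by
    intro i
    exact (hc.fderiv (𝕜 := ℝ)).comp_left (g := fun L : V →L[ℝ] ℝ => L (Pi.single i 1)) rfl
  -- the two fields
  have key : ∀ i : Fin 3, (i = 0 ∨ i = 1) →
      Integrable (fun x => (wt γ x + 2 * γ * (x i ^ 2 * sg x ^ (γ - 1))) * g x
        + x i * wt γ x * pd i g x) ∧
      ∫ x, ((wt γ x + 2 * γ * (x i ^ 2 * sg x ^ (γ - 1))) * g x
        + x i * wt γ x * pd i g x) = 0 := by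
    intro i hi
    have i1 : Integrable (fun x => wt γ x * g x) := int_wt h0 hgc hc
    have i2 : Integrable (fun x => wt γ x * (x i ^ 2 * g x / sg x)) :=
      int_div h0 h1 (by fun_prop) hc.mul_left
    have i3 : Integrable (fun x => wt γ x * (x i * pd i g x)) :=
      int_wt h0 ((continuous_apply i).mul (hpd i).continuous) (hpc i).mul_left
    have i4 : Integrable (fun x => wt γ x * (x i * g x)) :=
      int_wt h0 (by fun_prop) hc.mul_left
    have hI : Integrable (fun x => (wt γ x + 2 * γ * (x i ^ 2 * sg x ^ (γ - 1))) * g x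
        + x i * wt γ x * pd i g x) := by
      refine ((i1.add (i2.const_mul (2 * γ))).add i3).congr (Eventually.of_forall fun x => ?_)
      simp only [Pi.add_apply, wt_div h1 h0]
      ring
    refine ⟨hI, line_zero (F := fun x => x i * wt γ x * g x) i ?_ hI fun x => ?_⟩
    · refine i4.congr (Eventually.of_forall fun x => ?_)
      ring
    · have hd := ld_of_pd hg i x
      have hw : HasDerivAt (fun t : ℝ => (x + t • (Pi.single i 1 : V)) i *
          wt γ (x + t • (Pi.single i 1 : V)))
          (wt γ x + 2 * γ * (x i ^ 2 * sg x ^ (γ - 1))) 0 := by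
        rcases hi with rfl | rfl
        · have h2 := (one_dim (q := x 1 ^ 2) (a := x 0 + 0) h0 h1 (by positivity)).comp_const_add
            (x 0) 0
          refine (h2.congr_deriv ?_).congr_of_eventuallyEq (Eventually.of_forall fun t => ?_)
          · unfold wt sg
            rw [add_zero]
            ring
          · show _ * wt γ _ = _
            unfold wt
            rw [sg_line0]
            simp
        · have h2 := (one_dim (q := x 0 ^ 2) (a := x 1 + 0) h0 h1 (by positivity)).comp_const_add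
            (x 1) 0
          refine (h2.congr_deriv ?_).congr_of_eventuallyEq (Eventually.of_forall fun t => ?_)
          · unfold wt sg
            rw [add_zero, add_comm (x 1 ^ 2) (x 0 ^ 2)]
            ring
          · show _ * wt γ _ = _
            unfold wt
            rw [sg_line1]
            simp
      have h3 := hw.mul hd
      simp only [zero_smul, add_zero] at h3
      exact h3
  obtain ⟨a1, a2⟩ := key 0 (Or.inl rfl)
  obtain ⟨b1, b2⟩ := key 1 (Or.inr rfl)
  have h3 := integral_add a1 b1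
  rw [a2, b2, add_zero] at h3
  rw [← h3]
  refine integral_congr_ae (Eventually.of_forall fun x => ?_)
  simp only []
  have e : (x 0 ^ 2 + x 1 ^ 2) * sg x ^ (γ - 1) = wt γ x := by
    have := wt_div h1 h0 x (sg x)
    rcases (sg_nonneg x).eq_or_lt with h | h
    · unfold wt
      rw [← h, Real.zero_rpow h0.ne', Real.zero_rpow (by linarith), mul_zero]
    · rw [div_self h.ne', mul_one] at this
      rw [this]
      unfold sg
      ring
  unfold RR
  linear_combination (-2 * γ * g x) * e

/-- Integration by parts: the vertical derivative. -/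
lemma ibp_ver {γ : ℝ} (h0 : 0 < γ) {g : V → ℝ} (hg : ContDiff ℝ ∞ g)
    (hc : HasCompactSupport g) : ∫ x, wt γ x * pd 2 g x = 0 := by
  have hpc : HasCompactSupport (pd 2 g) :=
    (hc.fderiv (𝕜 := ℝ)).comp_left (g := fun L : V →L[ℝ] ℝ => L (Pi.single 2 1)) rfl
  refine line_zero (F := fun x => wt γ x * g x) 2 (int_wt h0 hg.continuous hc)
    (int_wt h0 (Pool.Agent.W583.MD.sm_pd hg 2).continuous hpc) fun x => ?_
  have hd := (ld_of_pd hg 2 x).const_mul (wt γ x)
  refine hd.congr_of_eventuallyEq (Eventually.of_forall fun t => ?_)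
  show wt γ _ * _ = _
  unfold wt
  rw [sg_line2]

end Pool.Agent.Q149.AXI
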